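import Pool.Agent.R157.Mink.Main

set_option autoImplicit false

namespace Pool.Agent.Results.MP_670edc_co.MinkowskiDisks

open MeasureTheory Metric Set
open Pool.Agent.R157.Mink

/-- **Total area of finite generalized Minkowski arrangements of order `√3 - 1 < μ < 1`.** -/
theorem result {n : ℕ} {m : ℝ} (hm : Real.sqrt 3 - 1 < m) (hm1 : m < 1) (x : Fin n → ℂ)
    (r : Fin n → ℝ) (h : IsArrangement m x r) :
    Real.pi * ∑ i, r i ^ 2 ≤
      cMu m * (volume (innerShell x r)).toReal + (volume (outerShell x r)).toReal ∧
    (Real.pi * ∑ i, r i ^ 2 =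
      cMu m * (volume (innerShell x r)).toReal + (volume (outerShell x r)).toReal ↔
      ∀ i j : Fin n, i ≠ j → (digon x r i j).Nonempty → Free x r i j → Thick m x r i j) :=
  main hm hm1 x r h

end Pool.Agent.Results.MP_670edc_co.MinkowskiDisks
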